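import Pool.Agent.H51.ERA.Stmts
import Pool.Agent.H51.ERA.Base

set_option autoImplicit false

namespace Pool.Agent.H1.ERA

open Pool.Agent.H51.ERA

theorem flat_split {α : Type} (f : ℕ → List α) (i n : ℕ) (h : i < n) :
    ∃ C : List α, (List.range n).flatMap f = (List.range i).flatMap f ++ (f i ++ C) := by
  induction n with
  | zero => omega
  | succ n ih =>
    rcases Nat.lt_or_ge i n with h1 | h1
    · obtain ⟨C, hC⟩ := ih h1
      refine ⟨C ++ f n, ?_⟩
      rw [List.range_succ, List.flatMap_append, hC]
      simp
    · have e : i = n := by omega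
      subst e
      refine ⟨[], ?_⟩
      rw [List.range_succ, List.flatMap_append]
      simp

theorem flat_len {α : Type} (f : ℕ → List α) (c i : ℕ) (h : ∀ j, (f j).length = c) :
    ((List.range i).flatMap f).length = i * c := by
  induction i with
  | zero => simp
  | succ n ih =>
    rw [List.range_succ, List.flatMap_append, List.length_append, ih]
    simp [h, Nat.succ_mul]

theorem seg_len (s t : ℕ) (b : ℕ → Bool) (ν : Node) : (seg s t b ν).length = gg s t := by
  simp [seg]

theorem sub_thm (hTLN : TLNStmt) : SUBStmt := by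
  intro s t b i p
  induction p with
  | nil =>
    intro hn
    obtain ⟨C, hC⟩ := flat_split (fun i => Tw s t b i (DD t) [] (if i = 0 then Fb t b else 0)) i
      (kk s) hn.1
    refine ⟨(vpart s t b).map Ltr.vl ++ (List.range i).flatMap
      (fun i => Tw s t b i (DD t) [] (if i = 0 then Fb t b else 0)), C,
      (if i = 0 then Fb t b else 0), ?_, ?_⟩
    · rw [WW, Bpart, hC]
      simp
    · rw [List.length_append, flat_len _ (tl s t (DD t)) i (fun j => (hTLN s t b j (DD t) [] _).1)]
      simp [vpart, lo]
  | cons c p ih =>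
    intro hn
    have hl : p.length + 1 ≤ DD t := by
      have := hn.2
      simpa using this
    obtain ⟨A, C, m, h1, h2⟩ := ih ⟨hn.1, by omega⟩
    have e : DD t - p.length = (DD t - (p.length + 1)) + 1 := by omega
    rw [e, Tw] at h1
    have e2 : DD t - (c :: p).length = DD t - (p.length + 1) := by simp
    rw [e2]
    generalize DD t - (p.length + 1) = h at *
    cases c with
    | false =>
      refine ⟨A ++ (seg s t b (i, p)).map Ltr.op, Tw s t b i h (true :: p) (m - 2 ^ h) ++
        ((seg s t b (i, p)).reverse.map Ltr.cl ++ C), min m (2 ^ h), ?_, ?_⟩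
      · rw [h1]
        simp
      · rw [List.length_append, h2, List.length_map, seg_len]
        simp [lo]
    | true =>
      refine ⟨A ++ ((seg s t b (i, p)).map Ltr.op ++ Tw s t b i h (false :: p) (min m (2 ^ h))),
        ((seg s t b (i, p)).reverse.map Ltr.cl ++ C), m - 2 ^ h, ?_, ?_⟩
      · rw [h1]
        simp
      · rw [List.length_append, h2, List.length_append, List.length_map, seg_len,
          (hTLN s t b i h (false :: p) _).1]
        have e3 : DD t - (p.length + 1) = h := by omega
        simp only [lo, if_true, e3]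
        omega

theorem tw_start (s t : ℕ) (b : ℕ → Bool) (i h : ℕ) (p : List Bool) (m : ℕ) :
    ∃ R : List Ltr, Tw s t b i h p m = (seg s t b (i, p)).map Ltr.op ++ R := by
  cases h with
  | zero => exact ⟨_, rfl⟩
  | succ h => exact ⟨_, rfl⟩

theorem sl_left (M C : List Ltr) (x y : ℕ) (hy : y ≤ M.length) : sl (M ++ C) x y = sl M x y := by
  have h := sl_sub [] M C x y hy
  simpa using h

theorem sl_seg (s t : ℕ) (b : ℕ → Bool) (ν : Node) (x y : ℕ) (hx : x ≤ y) (hy : y ≤ gg s t) :
    sl ((seg s t b ν).map Ltr.op) x y = ((List.range' x (y - x)).map (ent s t b ν)).map Ltr.op := by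
  unfold sl seg
  apply List.ext_getElem?
  intro n
  rw [List.getElem?_drop, List.getElem?_take, List.getElem?_map, List.getElem?_map,
    List.getElem?_map, List.getElem?_map]
  by_cases h : x + n < y
  · rw [if_pos h, List.getElem?_range (by omega), List.getElem?_range' (by omega)]
    simp
  · rw [if_neg h, List.getElem?_eq_none (l := List.range' x (y - x)) (by simp; omega)]
    simp

theorem ops_thm (hSUB : SUBStmt) : OPSStmt := by
  intro s t b i p x y hn hx hy
  obtain ⟨A, C, m, h1, h2⟩ := hSUB s t b i p hn
  obtain ⟨R, hR⟩ := tw_start s t b i (DD t - p.length) p m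
  have e : WW s t b = A ++ ((seg s t b (i, p)).map Ltr.op ++ (R ++ C)) := by
    rw [h1, hR]
    simp
  rw [e, ← h2, sl_sub _ _ _ _ _ (by rw [List.length_map, seg_len]; exact hy),
    sl_seg _ _ _ _ _ _ hx hy]

end Pool.Agent.H1.ERA
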